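import Pool.Agent.H11SW.Matroid

/-!
# MP_77f645_co: swapping two bases of a representable matroid by symmetric exchanges

Let `M` be a matroid which is represented over a field `K` of characteristic `0` (or `p > r`), and
let `B`, `B'` be two bases with `r` elements. Then the pair `(B, B')` can be turned into the pair
`(B', B)` by a sequence of symmetric exchanges. More generally, for every `X ⊆ B` there is a set
`Y ⊆ B'` with as many elements as `X` such that a sequence of symmetric exchanges, in which no
element of `B \ X` leaves the first basis, leads from `(B, B')` to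
`((B \ X) ∪ Y, (B' \ Y) ∪ X)`.
-/

set_option autoImplicit false

namespace Pool.Agent.Results.MP_77f645_co.BasisSwap

/-- The pair `Q` arises from the pair `P` by a symmetric exchange of an element `x` of its first set
with an element `y` of its second set, and both sets of `Q` are bases of `M`. -/
def SymExchange {α : Type*} (M : Matroid α) (P Q : Set α × Set α) : Prop :=
  (∃ x ∈ P.1, ∃ y ∈ P.2, Q.1 = insert y (P.1 \ {x}) ∧ Q.2 = insert x (P.2 \ {y})) ∧
    M.IsBase Q.1 ∧ M.IsBase Q.2

/-- Let the matroid `M` be represented over the field `K` by the vectors `φ e`. Let `B` and `B'` be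
two finite bases (they may share elements), let `X ⊆ B`, and let `1, ..., |X|` be nonzero in `K`.
Then there are a set `Y ⊆ B'` with `|Y| = |X|` and a sequence of symmetric exchanges which leads
from `(B, B')` to `((B \ X) ∪ Y, (B' \ Y) ∪ X)` through pairs of bases the first of which contains
`B \ X`. (For `X = B` the last pair is `(B', B)`.) -/
theorem result {α K V : Type*} [Field K] [AddCommGroup V] [Module K V]
    (M : Matroid α) (φ : α → V) (hφ : ∀ I ⊆ M.E, M.Indep I ↔ LinearIndepOn K φ I)
    {B B' : Set α} (hB : M.IsBase B) (hB' : M.IsBase B') (hfin : B.Finite) {X : Set α}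
    (hX : X ⊆ B) (hK : ∀ m : ℕ, 0 < m → m ≤ X.ncard → (m : K) ≠ 0) :
    ∃ Y ⊆ B', Y.ncard = X.ncard ∧
      Relation.ReflTransGen (fun P Q => SymExchange M P Q ∧ B \ X ⊆ Q.1) (B, B')
        ((B \ X) ∪ Y, (B' \ Y) ∪ X) := by
  have hXf : X.Finite := hfin.subset hX
  have h1 : (B \ X).ncard + X.ncard = B.ncard := Set.ncard_sdiff_add_ncard_of_subset hX hfin
  have h2 : B'.ncard = B.ncard := hB'.ncard_eq_ncard_of_isBase hB
  have hfin' : B'.Finite := by
    rw [← Set.encard_lt_top_iff, hB'.encard_eq_encard_of_isBase hB, Set.encard_lt_top_iff]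
    exact hfin
  obtain ⟨Y, hY, hYc, hp⟩ := Pool.Agent.H11SW.swap M φ hφ hB hB' hfin (X := B \ X)
    Set.sdiff_subset (fun m hm hm' => hK m hm (by omega))
  have h3 : (B' \ Y).ncard + Y.ncard = B'.ncard := Set.ncard_sdiff_add_ncard_of_subset hY hfin'
  refine ⟨B' \ Y, Set.sdiff_subset, by omega, ?_⟩
  rw [Set.sdiff_sdiff_cancel_left hY]
  rw [Set.sdiff_sdiff_cancel_left hX, Set.union_comm X Y] at hp
  exact hp

end Pool.Agent.Results.MP_77f645_co.BasisSwap
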