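import Pool.Agent.Gap14.Iter
import Pool.Agent.Gap14.Count
import Pool.Agent.Gabow87.Main6

/-!
# MP_77f645_co: Gabow's ordering up to rank one, with bounded gaps, for all matroids

Any two bases `B`, `B'` of a matroid of rank `r` can be ordered such that, in the cyclic sequence
which lists `B` and then `B'`, all blocks of `r` consecutive terms which start in `B` are bases, any
`r - 1` consecutive terms are independent, and among the blocks which start in the first third of
`B'` the bases have gaps of polylogarithmic length. No assumption on the matroid.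
-/

set_option autoImplicit false

namespace Pool.Agent.Results.MP_77f645_co.BoundedGaps

/-- The block of `r` cyclically consecutive terms, starting with the term number `i`, of the
sequence `u 0, ..., u (r - 1), v 0, ..., v (r - 1)` of length `2 r` (numbered from `0`): the set of
all terms whose number `j` satisfies `(j - i) mod 2 r < r`. -/
def block {α : Type*} {r : ℕ} (u v : Fin r → α) (i : Fin (r + r)) : Set α :=
  {x | ∃ j : Fin (r + r), (j - i).val < r ∧ x = Fin.append u v j}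

/-- Let `b` and `b'` list two bases of a matroid of rank `r` (they may share elements), and let
`L = ⌈log₂ r⌉`. They can be reordered such that
* every block which starts at a term number `i ≤ r` or, if `r ≥ 6`, at a term number `i` with
  `i mod r ∈ {0, 1, 2, r - 2, r - 1}` is a basis;
* any `r - 1` cyclically consecutive terms are distinct and form an independent set;
* if `r ≥ 6` and `2 m + 4 < r`, one of the blocks number `r + m + 1, ..., r + 2 m + 3` is a basis;
* if `r ≥ 6` and `(r - 2 - m) L < q (r - 4 - 2 m)`, one of the `2 q L` blocks number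
  `r + m, ..., r + m + 2 q L - 1` is a basis;
* at least `r + (r - 6) / (12 L ^ 2)` of the `2 r` blocks are bases. -/
theorem result {α : Type*} (M : Matroid α) {r : ℕ} (b b' : Fin r → α)
    (hb : Function.Injective b) (hb' : Function.Injective b')
    (hB : M.IsBase (Set.range b)) (hB' : M.IsBase (Set.range b')) :
    ∃ σ σ' : Equiv.Perm (Fin r),
      (∀ i : Fin (r + r),
        (i.val ≤ r ∨ 6 ≤ r ∧ (i.val % r ≤ 2 ∨ i.val % r = r - 2 ∨ i.val % r = r - 1)) →
        M.IsBase (block (b ∘ σ) (b' ∘ σ') i)) ∧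
      (∀ i : Fin (r + r), Set.InjOn (Fin.append (b ∘ σ) (b' ∘ σ')) {j | (j - i).val < r - 1} ∧
        M.Indep (Fin.append (b ∘ σ) (b' ∘ σ') '' {j | (j - i).val < r - 1})) ∧
      (∀ m : ℕ, 6 ≤ r → 2 * m + 4 < r → ∃ i : Fin (r + r), r + m < i.val ∧
        i.val ≤ r + 2 * m + 3 ∧ M.IsBase (block (b ∘ σ) (b' ∘ σ') i)) ∧
      (∀ m q : ℕ, 6 ≤ r → (r - 2 - m) * Nat.clog 2 r < q * (r - 4 - 2 * m) →
        ∃ i : Fin (r + r), r + m ≤ i.val ∧ i.val < r + m + 2 * q * Nat.clog 2 r ∧
          M.IsBase (block (b ∘ σ) (b' ∘ σ') i)) ∧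
      r + (r - 6) / (12 * Nat.clog 2 r ^ 2) ≤
        {i : Fin (r + r) | M.IsBase (block (b ∘ σ) (b' ∘ σ') i)}.ncard := by
  rcases Nat.lt_or_ge r 6 with h6 | h6
  · obtain ⟨σ, σ', h1, h2, -⟩ := Pool.Agent.Near48.near_refine M b b' hb hB hB'
    refine ⟨σ, σ', fun i hi => h1 i (by omega), h2, fun m h => absurd h (by omega),
      fun m q h => absurd h (by omega), ?_⟩
    rw [show r - 6 = 0 by omega, Nat.zero_div]
    exact Pool.Agent.Gap14.count_windows (G := 1) (K := 0) _ (fun i hi => h1 i hi.le)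
      (fun k hk => absurd hk (Nat.not_lt_zero _))
  obtain ⟨τ, τ', hτ⟩ := Pool.Agent.Gabow87.main6 M h6 b b' hb hb' hB hB'
  have hb1 : Function.Injective (b ∘ τ) := hb.comp τ.injective
  have hB1 : M.IsBase (Set.range (b ∘ τ)) := by
    rw [τ.surjective.range_comp]
    exact hB
  have hB1' : M.IsBase (Set.range (b' ∘ τ')) := by
    rw [τ'.surjective.range_comp]
    exact hB'
  set N := M.comap (Sum.elim (b ∘ τ) (b' ∘ τ')) with hN
  have hK : ∀ m, m < r → (m ≤ 2 ∨ m = r - 2 ∨ m = r - 1) → Pool.Agent.Gap14.KB N 1 1 m := by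
    intro m hm hm2
    refine Pool.Agent.Gap14.kb_of_block hb1 hB1 hm ?_
    intro j hj
    exact hτ j (by rw [hj]; omega)
  set L := Nat.clog 2 r with hL
  have hL1 : 1 ≤ L := Nat.clog_pos one_lt_two (by omega)
  have hrL : r ≤ 2 ^ L := Nat.le_pow_clog one_lt_two r
  obtain ⟨ρ, ρ', m2, hm2, hm2', e1, e1', hF⟩ := Pool.Agent.Gap14.iterate N hL1 hrL
    (m1 := r - 2) (by omega) (r - 2 - 2) 1 1 2 (by omega) le_rfl (hK 2 (by omega) (by omega)) (by
      intro m hm
      refine ⟨⟨m + 1, by omega, by omega, hK (m + 1) (by omega) (by omega), by omega⟩, ?_⟩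
      intro q hq
      have hq0 : 0 < q := by
        rcases Nat.eq_zero_or_pos q with h4 | h4
        · rw [h4, Nat.zero_mul] at hq
          omega
        · exact h4
      have hqL : 0 < 2 * q * L := by positivity
      exact ⟨m, le_rfl, by omega, by omega, hK m (by omega) (by omega)⟩)
  have hK2 : ∀ m, m < r → (m ≤ 2 ∨ m = r - 2 ∨ m = r - 1) → Pool.Agent.Gap14.KB N ρ ρ' m :=
    fun m hm hm2 => (hK m hm hm2).congr (e1 m (by omega)) (e1' m (by omega))
  have hb2 : Function.Injective (b ∘ τ ∘ ρ) := hb1.comp ρ.injective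
  have hB2 : M.IsBase (Set.range (b ∘ τ ∘ ρ)) := by
    rw [← Function.comp_assoc, ρ.surjective.range_comp]
    exact hB1
  have hB2' : M.IsBase (Set.range (b' ∘ τ' ∘ ρ')) := by
    rw [← Function.comp_assoc, ρ'.surjective.range_comp]
    exact hB1'
  obtain ⟨σ, σ', h1, h2, h3⟩ := Pool.Agent.Near48.near_refine M (b ∘ τ ∘ ρ) (b' ∘ τ' ∘ ρ')
    hb2 hB2 hB2'
  have key : ∀ m, Pool.Agent.Gap14.KB N ρ ρ' m → ∀ i : Fin (r + r), i.val % r = m →
      M.IsBase (block (b ∘ (τ * ρ * σ : Equiv.Perm (Fin r)))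
        (b' ∘ (τ' * ρ' * σ' : Equiv.Perm (Fin r))) i) :=
    fun m hm i hi => h3 m (fun j hj => hm.block hb1 hB1 j hj) i hi
  have w3 : ∀ m : ℕ, 2 * m + 4 < r → ∃ i : Fin (r + r), r + m < i.val ∧
      i.val ≤ r + 2 * m + 3 ∧ M.IsBase (block (b ∘ (τ * ρ * σ : Equiv.Perm (Fin r)))
        (b' ∘ (τ' * ρ' * σ' : Equiv.Perm (Fin r))) i) := by
    intro m hm
    obtain ⟨⟨m', f1, f2, f3, f4⟩, -⟩ := hF m (by omega)
    refine ⟨⟨r + m', by omega⟩, by change r + m < r + m'; omega,
      by change r + m' ≤ _; omega, key m' f3 _ ?_⟩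
    change (r + m') % r = m'
    rw [Nat.add_mod_left, Nat.mod_eq_of_lt (by omega)]
  have w4 : ∀ m q : ℕ, (r - 2 - m) * L < q * (r - 4 - 2 * m) → ∃ i : Fin (r + r),
      r + m ≤ i.val ∧ i.val < r + m + 2 * q * L ∧
      M.IsBase (block (b ∘ (τ * ρ * σ : Equiv.Perm (Fin r)))
        (b' ∘ (τ' * ρ' * σ' : Equiv.Perm (Fin r))) i) := by
    intro m q hq
    have h0 : 0 < r - 4 - 2 * m := by
      rcases Nat.eq_zero_or_pos (r - 4 - 2 * m) with h4 | h4
      · rw [h4, Nat.mul_zero] at hq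
        omega
      · exact h4
    obtain ⟨-, hF4⟩ := hF m (by omega)
    have e2 : 2 * (r - 2 - m) - r = r - 4 - 2 * m := by omega
    obtain ⟨m', f1, f2, f3, f4⟩ := hF4 q (by rw [e2]; exact hq)
    refine ⟨⟨r + m', by omega⟩, by change r + m ≤ r + m'; omega,
      by change r + m' < _; omega, key m' f4 _ ?_⟩
    change (r + m') % r = m'
    rw [Nat.add_mod_left, Nat.mod_eq_of_lt (by omega)]
  refine ⟨τ * ρ * σ, τ' * ρ' * σ', ?_, h2, fun m _ => w3 m, fun m q _ => w4 m q, ?_⟩
  · intro i hi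
    rcases hi with hi | hi
    · exact h1 i hi
    · have := Nat.mod_lt i.val (show 0 < r by omega)
      exact key _ (hK2 (i.val % r) this (by omega)) i rfl
  · refine Pool.Agent.Gap14.count_windows (G := 4 * L ^ 2) _ (fun i hi => h1 i hi.le) ?_
    intro k hk
    have h5 : 12 * L ^ 2 * ((r - 6) / (12 * L ^ 2)) ≤ r - 6 := Nat.mul_div_le _ _
    have h6 : 12 * L ^ 2 * (k + 1) ≤ r - 6 := (Nat.mul_le_mul_left _ hk).trans h5
    have h7 : 0 < L ^ 2 := by positivity
    have h8 : 3 * (4 * L ^ 2 * k) + 12 * L ^ 2 ≤ r - 6 := by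
      calc 3 * (4 * L ^ 2 * k) + 12 * L ^ 2 = 12 * L ^ 2 * (k + 1) := by ring
        _ ≤ r - 6 := h6
    obtain ⟨m, hm⟩ : ∃ m, m = 4 * L ^ 2 * k := ⟨_, rfl⟩
    rw [← hm] at h8 ⊢
    obtain ⟨i, f1, f2, f3⟩ := w4 m (2 * L) (by
      have h9 : r - 2 - m < 2 * (r - 4 - 2 * m) := by omega
      calc (r - 2 - m) * L < 2 * (r - 4 - 2 * m) * L := Nat.mul_lt_mul_of_pos_right h9 (by omega)
        _ = 2 * L * (r - 4 - 2 * m) := by ring)
    refine ⟨i, f1, ?_, f3⟩
    have h10 : 2 * (2 * L) * L = 4 * L ^ 2 := by ring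
    rw [h10] at f2
    exact f2

end Pool.Agent.Results.MP_77f645_co.BoundedGaps
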