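import Pool.Agent.Gap14.Rfin

/-!
# MP_77f645_co: Gabow's conjecture when circuits and cocircuits are long

Gabow's conjecture holds for two bases `B`, `B'` if, in the minor of the matroid on the symmetric
difference of `B` and `B'`, the circuits and the cocircuits are long: with a linear defect, for
instance all of them having more than nine tenths of the rank of the minor as many elements.
-/

set_option autoImplicit false

namespace Pool.Agent.Results.MP_77f645_co.NearUniform

/-- The block of `r` cyclically consecutive terms, starting with the term number `i`, of the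
sequence `u 0, ..., u (r - 1), v 0, ..., v (r - 1)` of length `2 r` (numbered from `0`): the set of
all terms whose number `j` satisfies `(j - i) mod 2 r < r`. -/
def block {α : Type*} {r : ℕ} (u v : Fin r → α) (i : Fin (r + r)) : Set α :=
  {x | ∃ j : Fin (r + r), (j - i).val < r ∧ x = Fin.append u v j}

/-- Let `b` and `b'` list two bases `B` and `B'` of a matroid of rank `r` (they may share elements)
and let `5 (c + d) ≤ |B \ B'|`. If every set `Z` with `B ∩ B' ⊆ Z ⊆ B ∪ B'` is independent if it has
at most `r - c` elements and spanning if it has at least `r + d` elements, then `b` and `b'` can be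
reordered such that all `2 r` blocks of `r` cyclically consecutive terms are bases. -/
theorem result {α : Type*} (M : Matroid α) {r c d : ℕ} (b b' : Fin r → α)
    (hb : Function.Injective b) (hb' : Function.Injective b')
    (hB : M.IsBase (Set.range b)) (hB' : M.IsBase (Set.range b'))
    (hcd : 5 * (c + d) ≤ (Set.range b \ Set.range b').ncard)
    (hI : ∀ Z, Set.range b ∩ Set.range b' ⊆ Z → Z ⊆ Set.range b ∪ Set.range b' →
      Z.ncard + c ≤ r → M.Indep Z)
    (hS : ∀ Z, Set.range b ∩ Set.range b' ⊆ Z → Z ⊆ Set.range b ∪ Set.range b' →
      r + d ≤ Z.ncard → M.Spanning Z) :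
    ∃ σ σ' : Equiv.Perm (Fin r), ∀ i : Fin (r + r), M.IsBase (block (b ∘ σ) (b' ∘ σ') i) :=
  Pool.Agent.Gap14.near_uniform M b b' hb hb' hB hB' hI hS hcd

end Pool.Agent.Results.MP_77f645_co.NearUniform
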