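import Pool.Agent.Gabow87.GR.Five

/-!
# MP_77f645_co: Gabow's conjecture in rank at most five

Any two bases of a matroid of rank at most five can be ordered such that all blocks of `r` cyclically
consecutive terms are bases. No assumption on the matroid.
-/

set_option autoImplicit false

namespace Pool.Agent.Results.MP_77f645_co.SmallRank

/-- The block of `r` cyclically consecutive terms, starting with the term number `i`, of the
sequence `u 0, ..., u (r - 1), v 0, ..., v (r - 1)` of length `2 r` (numbered from `0`): the set of
all terms whose number `j` satisfies `(j - i) mod 2 r < r`. -/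
def block {α : Type*} {r : ℕ} (u v : Fin r → α) (i : Fin (r + r)) : Set α :=
  {x | ∃ j : Fin (r + r), (j - i).val < r ∧ x = Fin.append u v j}

/-- Let `b` and `b'` list two bases of a matroid of rank `r ≤ 5` (they may share elements). Then
`b` and `b'` can be reordered such that all `2 r` blocks of `r` cyclically consecutive terms are
bases. -/
theorem result {α : Type*} (M : Matroid α) {r : ℕ} (hr : r ≤ 5) (b b' : Fin r → α)
    (hb : Function.Injective b) (hb' : Function.Injective b')
    (hB : M.IsBase (Set.range b)) (hB' : M.IsBase (Set.range b')) :
    ∃ σ σ' : Equiv.Perm (Fin r), ∀ i : Fin (r + r), M.IsBase (block (b ∘ σ) (b' ∘ σ') i) :=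
  Pool.Agent.Gabow87.gabow_le_five M hr b b' hb hb' hB hB'

end Pool.Agent.Results.MP_77f645_co.SmallRank
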